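import Pool.Agent.W_4481e3_q87.GoR
import Pool.Agent.W_4481e3_tab.T6

/-!
Tree s02o6, data 12.
-/

namespace Pool.Agent.W_4481e3_rt.s02o6

open Pool.Agent.W_4481e3_q25.EvR

theorem k251 : ckO Pool.Agent.W_4481e3_tab.T6.tab 132160 222080 67108864 1048576 1482752 2097152 8 524288 524288 2621440 524288 493837352 508181872 14344520 28689040 268435456 268435456 16777216 16777216 2118124 2118124 0x100000c00000c00013c00005c00013c00013c02000c2100013c02014c03014c2121212 = true := by decide +kernel

end Pool.Agent.W_4481e3_rt.s02o6
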